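import Pool.Agent.H16.SC.Targets

/-! Module KNL (block B1, MP_f2954d_ag): the key lemma on products of nef classes. -/

namespace Pool.Agent.H66.SC.KNL

open SCB Multiset

variable {N P : Type} [NormedAddCommGroup N] [NormedSpace ℝ N] [FiniteDimensional ℝ N] {n : ℕ}
  {X : Geo N P n} {A : N}

/-- `Z B ^ i C ^ j` -/
def mm (Z : Multiset N) (B C : N) (i j : ℕ) : Multiset N := Z + replicate i B + replicate j C

omit [NormedSpace ℝ N] [FiniteDimensional ℝ N] in
lemma mB (Z : Multiset N) (B C : N) (i j : ℕ) : B ::ₘ mm Z B C i j = mm Z B C (i + 1) j := by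
  simp [mm, Multiset.replicate_succ]

omit [NormedSpace ℝ N] [FiniteDimensional ℝ N] in
lemma mC (Z : Multiset N) (B C : N) (i j : ℕ) : C ::ₘ mm Z B C i j = mm Z B C i (j + 1) := by
  simp [mm, Multiset.replicate_succ]

omit [NormedSpace ℝ N] [FiniteDimensional ℝ N] in
lemma mZB (Z : Multiset N) (B C : N) (i j : ℕ) :
    mm (B ::ₘ Z) B C i j = mm Z B C (i + 1) j := by
  simp [mm, Multiset.replicate_succ]

omit [NormedSpace ℝ N] [FiniteDimensional ℝ N] in
lemma mZC (Z : Multiset N) (B C : N) (i j : ℕ) :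
    mm (C ::ₘ Z) B C i j = mm Z B C i (j + 1) := by
  simp [mm, Multiset.replicate_succ]

omit [NormedSpace ℝ N] [FiniteDimensional ℝ N] in
lemma mm_mm (Z : Multiset N) (B C : N) (i j l : ℕ) :
    mm (mm Z B C 0 l) B C i j = mm Z B C i (j + l) := by
  simp only [mm, Multiset.replicate_zero, Multiset.replicate_add, add_zero]
  abel

omit [NormedSpace ℝ N] [FiniteDimensional ℝ N] in
lemma mcard (Z : Multiset N) (B C : N) (i j : ℕ) : (mm Z B C i j).card = Z.card + i + j := by
  simp [mm]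

lemma mnef {Z : Multiset N} {B C : N} (hZ : ∀ a ∈ Z, a ∈ X.Nef) (hB : B ∈ X.Nef)
    (hC : C ∈ X.Nef) (i j : ℕ) : ∀ a ∈ mm Z B C i j, a ∈ X.Nef := by
  intro a ha
  simp only [mm, Multiset.mem_add, Multiset.mem_replicate] at ha
  rcases ha with (ha | ha) | ha
  · exact hZ a ha
  · rw [ha.2]; exact hB
  · rw [ha.2]; exact hC

omit [NormedSpace ℝ N] [FiniteDimensional ℝ N] in
lemma msplit (Z : Multiset N) (B C : N) (i j i' j' : ℕ) :
    mm Z B C (i + i') (j + j') = mm Z B C i j + mm 0 B C i' j' := by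
  simp only [mm, Multiset.replicate_add, zero_add]
  abel

section

variable (hLR : T_LR) (hCN : T_CN) (hPS : T_PS) (hNZ : T_NZ) (hA : A ∈ X.G)

include hCN hA in
lemma Anef : A ∈ X.Nef := interior_subset ((hCN N P n X).2.2.1 A hA)

include hNZ hA in
/-- submultisets of nonzero products are nonzero -/
lemma msub {Z : Multiset N} {B C : N} (hZ : ∀ a ∈ Z, a ∈ X.Nef) (hB : B ∈ X.Nef)
    (hC : C ∈ X.Nef) {i j i' j' : ℕ} (hi : i ≤ i') (hj : j ≤ j')
    (h : X.Nz A (mm Z B C i' j')) : X.Nz A (mm Z B C i j) := by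
  obtain ⟨u, rfl⟩ := Nat.exists_eq_add_of_le hi
  obtain ⟨v, rfl⟩ := Nat.exists_eq_add_of_le hj
  rw [msplit] at h
  exact (hNZ N P n X A hA).1 _ _ (mnef hZ hB hC i j) (mnef (by simp) hB hC u v) h

include hCN hPS hA in
/-- a product which is not nonzero is zero -/
lemma mzero {Y : Multiset N} (hY : ∀ a ∈ Y, a ∈ X.Nef) (h : ¬ X.Nz A Y) (r : ℕ)
    (hr : Y.card + r = n) : X.I (Y + replicate r A) = 0 := by
  have h1 : 0 ≤ X.I (Y + replicate r A) := by
    refine (hPS N P n X).1 _ (by simpa using hr) ?_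
    intro a ha
    rcases Multiset.mem_add.1 ha with ha | ha
    · exact hY a ha
    · rw [Multiset.eq_of_mem_replicate ha]; exact Anef hCN hA
  by_contra hne
  exact h ⟨r, hr, lt_of_le_of_ne h1 (Ne.symm hne)⟩

include hLR hCN hPS hA in
lemma q0 {S : Multiset N} (hS : ∀ a ∈ S, a ∈ X.Nef) {x y : N} (hx : x ∈ X.Nef) (hy : y ∈ X.Nef)
    (h1 : X.Nz A (x ::ₘ x ::ₘ S)) (h2 : ¬ X.Nz A (x ::ₘ y ::ₘ S)) : ¬ X.Nz A (y ::ₘ S) := by
  obtain ⟨r, hr, hpos⟩ := h1
  simp only [Multiset.card_cons] at hr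
  have hAn : A ∈ X.Nef := Anef hCN hA
  set S' : Multiset N := S + replicate r A with hS'
  have hS'n : ∀ a ∈ S', a ∈ X.Nef := by
    intro a ha
    rcases Multiset.mem_add.1 ha with ha | ha
    · exact hS a ha
    · rw [Multiset.eq_of_mem_replicate ha]; exact hAn
  have hc : S'.card + 2 = n := by simp [hS']; omega
  have hsb := X.symBil_q hc
  have hlor : Lor (X.q S') := (hPS N P n X).2.2.2.1 S' hc hS'n
  have hnn : ∀ u v : N, u ∈ X.Nef → v ∈ X.Nef → 0 ≤ X.q S' u v := by
    intro u v hu hv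
    refine (hPS N P n X).1 _ (by simp; omega) ?_
    intro a ha
    rcases Multiset.mem_cons.1 ha with rfl | ha
    · exact hu
    rcases Multiset.mem_cons.1 ha with rfl | ha
    · exact hv
    · exact hS'n a ha
  have hxx : 0 < X.q S' x x := by
    have e : x ::ₘ x ::ₘ S' = (x ::ₘ x ::ₘ S) + replicate r A := by
      simp [hS']
    show 0 < X.I (x ::ₘ x ::ₘ S')
    rw [e]; exact hpos
  have hxy : X.q S' x y = 0 := by
    have e : x ::ₘ y ::ₘ S' = (x ::ₘ y ::ₘ S) + replicate r A := by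
      simp [hS']
    show X.I (x ::ₘ y ::ₘ S') = 0
    rw [e]
    refine mzero hCN hPS hA ?_ h2 r (by simp; omega)
    intro a ha
    rcases Multiset.mem_cons.1 ha with rfl | ha
    · exact hx
    rcases Multiset.mem_cons.1 ha with rfl | ha
    · exact hy
    · exact hS a ha
  obtain ⟨l1, l2, -⟩ := hLR N (X.q S') hsb hlor
  have hyy : X.q S' y y = 0 := le_antisymm (l1 x y hxx hxy) (hnn y y hy hy)
  have hyA : X.q S' y A = 0 := l2 x y hxx hxy hyy A
  rintro ⟨r', hr', hpos'⟩
  simp only [Multiset.card_cons] at hr'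
  have er : r' = r + 1 := by omega
  subst er
  have e : y ::ₘ A ::ₘ S' = (y ::ₘ S) + replicate (r + 1) A := by
    rw [Multiset.cons_swap]
    simp [hS', Multiset.replicate_succ]
  have : X.q S' y A = X.I ((y ::ₘ S) + replicate (r + 1) A) := by
    show X.I (y ::ₘ A ::ₘ S') = _
    rw [e]
  rw [← this, hyA] at hpos'
  exact lt_irrefl _ hpos'

omit [FiniteDimensional ℝ N] in
lemma zsum (B C : N) : ∀ (m : ℕ) (Z : Multiset N), Z.card + m = n →
    (∀ j ≤ m, X.I (mm Z B C j (m - j)) = 0) → X.I (Z + replicate m (B + C)) = 0 := by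
  intro m
  induction m with
  | zero =>
    intro Z _ h
    simpa [mm] using h 0 le_rfl
  | succ m ih =>
    intro Z hc h
    have e : Z + replicate (m + 1) (B + C) = (B + C) ::ₘ (Z + replicate m (B + C)) := by
      simp [Multiset.replicate_succ]
    rw [e, X.I_add _ _ (by simp; omega)]
    have h1 : X.I (B ::ₘ (Z + replicate m (B + C))) = 0 := by
      rw [← Multiset.cons_add]
      refine ih (B ::ₘ Z) (by simp; omega) ?_
      intro j hj
      rw [mZB]
      have := h (j + 1) (by omega)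
      rwa [Nat.add_sub_add_right] at this
    have h2 : X.I (C ::ₘ (Z + replicate m (B + C))) = 0 := by
      rw [← Multiset.cons_add]
      refine ih (C ::ₘ Z) (by simp; omega) ?_
      intro j hj
      rw [mZC]
      have := h j (by omega)
      rwa [Nat.sub_add_comm hj] at this
    rw [h1, h2, add_zero]

/-- no internal zeros -/
def NIZ (X : Geo N P n) (A : N) (k : ℕ) : Prop := ∀ (Z : Multiset N) (B C : N),
  (∀ a ∈ Z, a ∈ X.Nef) → B ∈ X.Nef → C ∈ X.Nef → X.Nz A (mm Z B C 0 k) → X.Nz A (mm Z B C k 0) →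
  ∀ i ≤ k, X.Nz A (mm Z B C i (k - i))

/-- the lemma -/
def LEM (X : Geo N P n) (A : N) (k : ℕ) : Prop := ∀ (Z : Multiset N) (B C : N),
  (∀ a ∈ Z, a ∈ X.Nef) → B ∈ X.Nef → C ∈ X.Nef → X.Nz A (mm Z B C 0 k) → X.Nz A (mm Z B C 1 0) →
  X.Nz A (Z + replicate (k + 1) (B + C)) → X.Nz A (mm Z B C 1 k)

include hNZ hA in
lemma niz_succ (k : ℕ) (h1 : NIZ X A k) (h2 : LEM X A k) : NIZ X A (k + 1) := by
  intro Z B C hZ hB hC h0 hk i hi
  rcases Nat.eq_zero_or_pos i with rfl | hpos
  · simpa using h0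
  have hs : X.Nz A (mm Z B C 1 k) := by
    refine h2 Z B C hZ hB hC (msub hNZ hA hZ hB hC le_rfl (Nat.le_succ k) h0)
      (msub hNZ hA hZ hB hC (by omega) le_rfl hk) ?_
    rw [add_comm B C]
    refine (hNZ N P n X A hA).2.2.1 Z C B (k + 1) hZ hC hB ?_
    simpa [mm] using h0
  obtain ⟨j, rfl⟩ : ∃ j, i = j + 1 := ⟨i - 1, by omega⟩
  have := h1 (B ::ₘ Z) B C (by
    intro a ha
    rcases Multiset.mem_cons.1 ha with rfl | ha
    · exact hB
    · exact hZ a ha) hB hC (by rw [mZB]; exact hs) (by rw [mZB]; exact hk) j (by omega)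
  rw [mZB] at this
  rwa [Nat.add_sub_add_right]

include hLR hCN hPS hNZ hA in
lemma lem_succ (k : ℕ) (h1 : ∀ j ≤ k + 1, NIZ X A j) : LEM X A (k + 1) := by
  intro Z B C hZ hB hC h0 hB0 hBC
  by_contra hcon
  classical
  have hex : ∃ i, ¬ X.Nz A (mm Z B C 1 i) := ⟨k + 1, hcon⟩
  set i := Nat.find hex with hi
  have hispec : ¬ X.Nz A (mm Z B C 1 i) := Nat.find_spec hex
  have hile : i ≤ k + 1 := Nat.find_min' hex hcon
  have hipos : i ≠ 0 := by
    intro h
    rw [h] at hispec
    exact hispec hB0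
  obtain ⟨l, hl⟩ : ∃ l, i = l + 1 := ⟨i - 1, by omega⟩
  have hmin : X.Nz A (mm Z B C 1 l) := by
    by_contra h
    have := Nat.find_min' hex h
    omega
  rw [hl] at hispec
  have hSn : ∀ a ∈ mm Z B C 0 l, a ∈ X.Nef := mnef hZ hB hC 0 l
  have hCS : X.Nz A (C ::ₘ mm Z B C 0 l) := by
    rw [mC]; exact msub hNZ hA hZ hB hC le_rfl (by omega) h0
  have hBS : X.Nz A (B ::ₘ mm Z B C 0 l) := by
    rw [mB]; exact hmin
  have hCC : ¬ X.Nz A (C ::ₘ C ::ₘ mm Z B C 0 l) := by
    intro h
    refine q0 hLR hCN hPS hA hSn hC hB h ?_ hBS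
    rw [mB, mC]; exact hispec
  rw [mC, mC] at hCC
  have hlk : l = k := by
    by_contra hne
    exact hCC (msub hNZ hA hZ hB hC le_rfl (by omega) h0)
  subst hlk
  -- the claim
  have claim : ∀ j, j ≤ l + 1 → ¬ X.Nz A (mm Z B C (j + 1) (l + 1 - j)) := by
    intro j
    induction j with
    | zero => intro _; simpa using hispec
    | succ j ih =>
      intro hj hnz
      have hprev := ih (by omega)
      have e1 : l + 1 - j = (l - j) + 1 := by omega
      have e2 : l + 1 - (j + 1) = l - j := by omega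
      rw [e1] at hprev
      rw [e2] at hnz
      have hS : ∀ a ∈ mm Z B C j (l - j), a ∈ X.Nef := mnef hZ hB hC _ _
      have hbad : ¬ X.Nz A (C ::ₘ mm Z B C j (l - j)) := by
        refine q0 hLR hCN hPS hA hS hB hC ?_ ?_
        · rw [mB, mB]; exact hnz
        · rw [mC, mB]; exact hprev
      rw [mC] at hbad
      have hn := h1 (j + 1) (by omega) (mm Z B C 0 (l - j)) B C (mnef hZ hB hC _ _) hB hC
        (by
          rw [mm_mm]
          have e3 : j + 1 + (l - j) = l + 1 := by omega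
          rw [e3]; exact h0)
        (by
          rw [mm_mm]
          exact msub hNZ hA hZ hB hC (by omega) (by omega) hnz) j (by omega)
      rw [mm_mm] at hn
      have e4 : j + 1 - j + (l - j) = l - j + 1 := by omega
      rw [e4] at hn
      exact hbad hn
  -- conclusion
  obtain ⟨r, hr, hpos⟩ := hBC
  simp only [Multiset.card_add, Multiset.card_replicate] at hr
  have hz : X.I ((Z + replicate r A) + replicate (l + 2) (B + C)) = 0 := by
    refine zsum B C (l + 2) (Z + replicate r A) (by simp; omega) ?_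
    intro j hj
    have e : mm (Z + replicate r A) B C j (l + 2 - j) = mm Z B C j (l + 2 - j) + replicate r A := by
      simp only [mm]; abel
    rw [e]
    refine mzero hCN hPS hA (mnef hZ hB hC _ _) ?_ r (by rw [mcard]; omega)
    rcases Nat.eq_zero_or_pos j with rfl | hjp
    · simpa using hCC
    · obtain ⟨j', rfl⟩ : ∃ j', j = j' + 1 := ⟨j - 1, by omega⟩
      have := claim j' (by omega)
      have e5 : l + 2 - (j' + 1) = l + 1 - j' := by omega
      rw [e5]; exact this
  have e6 : (Z + replicate r A) + replicate (l + 2) (B + C) =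
      Z + replicate (l + 1 + 1) (B + C) + replicate r A := by abel
  rw [e6] at hz
  rw [hz] at hpos
  exact lt_irrefl _ hpos

include hLR hCN hPS hNZ hA in
lemma main : ∀ k, NIZ X A k ∧ LEM X A k := by
  intro k
  induction k using Nat.strong_induction_on with
  | _ k ih =>
    rcases k with _ | k
    · refine ⟨?_, ?_⟩
      · intro Z B C _ _ _ h _ i hi
        have : i = 0 := by omega
        subst this
        simpa using h
      · intro Z B C _ _ _ _ h _
        exact h
    · have hn : NIZ X A (k + 1) := niz_succ hNZ hA k (ih k (by omega)).1 (ih k (by omega)).2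
      refine ⟨hn, lem_succ hLR hCN hPS hNZ hA k ?_⟩
      intro j hj
      rcases Nat.lt_or_ge j (k + 1) with h | h
      · exact (ih j h).1
      · have : j = k + 1 := by omega
        rw [this]; exact hn

end

theorem knl (hLR : T_LR) (hCN : T_CN) (hPS : T_PS) (hNZ : T_NZ) : T_NL := by
  intro N P _ _ _ n X A hA k Z B C hZ hB hC h1 h2 h3
  have := (main hLR hCN hPS hNZ hA k).2 Z B C hZ hB hC (by simpa [mm] using h1)
    (by
      have e : mm Z B C 1 0 = B ::ₘ Z := by
        rw [← mB]; simp [mm]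
      rw [e]; exact h2) h3
  have e : mm Z B C 1 k = B ::ₘ (Z + replicate k C) := by
    rw [← mB]; simp [mm]
  rw [e] at this
  exact this

end Pool.Agent.H66.SC.KNL
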