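import Pool.Agent.H16.SC.Targets

/-! Module KS6 (block B1, MP_f2954d_ag): prime divisors outside the kernel do not contribute. -/

namespace Pool.Agent.H66.SC.KS6

open SCB Multiset Filter Topology

lemma lor_smul {N : Type} {q : N → N → ℝ} (h : Lor q) {t : ℝ} (ht : 0 < t) :
    Lor (fun x y => t * q x y) := by
  intro x y hx
  simp only at hx ⊢
  have h1 : 0 < q x x := by
    by_contra hc
    push Not at hc
    nlinarith
  have h2 := h x y h1
  nlinarith [mul_pos ht ht, mul_le_mul_of_nonneg_left h2 (mul_pos ht ht).le]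

theorem ks6 (hCN : T_CN) (hCT : T_CT) (hLR : T_LR) (hLL : T_LL) (hPS : T_PS) (hPM : T_PM)
    (hDM : T_DM) (hRP : T_RP) (hNB : T_NB) (hL1 : T_L1) (hL2 : T_L2) : T_S6 := by
  intro N P ι _ _ _ _ _ n X A hA hcard L hNS i₀ M g η x η₀ D c hM hMn hg hη hx hxy hD hc hall
  have : ProperSpace N := FiniteDimensional.proper ℝ N
  set M₀ : Multiset N := mss (Finset.univ.erase i₀) L with hM₀
  have hpos1 : 0 < Fintype.card ι := Fintype.card_pos_iff.2 ⟨i₀⟩
  have hcM₀ : M₀.card + 3 = n := by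
    rw [hM₀, card_mss, Finset.card_erase_of_mem (Finset.mem_univ _), Finset.card_univ]; omega
  have hcM : ∀ k, (M k).card + 3 = n := fun k => by rw [hM.card_eq k]; exact hcM₀
  have hAn : A ∈ X.Nef := interior_subset ((hCN N P n X).2.2.1 A hA)
  have hLn : ∀ i, L i ∈ X.Nef := hNS.1
  have hM₀n : ∀ a ∈ M₀, a ∈ X.Nef := by
    intro a ha
    obtain ⟨i, -, rfl⟩ := (mem_mss _ _ _).1 ha
    exact hLn i
  have hmsL : ms L = L i₀ ::ₘ M₀ := ms_erase L i₀
  -- the family F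
  set F : ι → N := rep A {i₀} L with hF
  have hmsF : ms F = A ::ₘ M₀ := by
    rw [ms_erase F i₀]
    congr 1
    · simp [hF, rep]
    · refine mss_congr ?_
      intro i hi
      have : i ≠ i₀ := (Finset.mem_erase.1 hi).1
      simp [hF, rep, this]
  have hNSF : X.NS A F := (hRP N P ι n X A hA hcard L hNS {i₀}).1
  have hPosD : ∀ D : P, X.Pos (X.cl D) := (hPS N P n X).2.1
  have hDF : ∀ k, ¬ X.Ker F (X.cl (D k)) := by
    intro k hk
    apply hD k
    intro y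
    rw [hmsL]
    have h0 : X.I ((X.cl (D k) ::ₘ M₀) + (A ::ₘ A ::ₘ 0)) = 0 := by
      have := hk A
      rw [hmsF] at this
      rw [← this]
      congr 1
      simp only [Multiset.cons_add, Multiset.add_cons, add_zero]
      rw [Multiset.cons_swap (X.cl (D k)) A, Multiset.cons_swap (X.cl (D k)) A]
    have := hDM N P n X (X.cl (D k) ::ₘ M₀) (A ::ₘ A ::ₘ 0)
      ((hPM N P n X).2.2.1 _ _ (hPosD (D k)) hM₀n)
      (by
        intro a ha
        have : a = A := by simpa using ha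
        rw [this]; exact (hCN N P n X).2.2.1 A hA)
      (by simp; omega) h0 (y ::ₘ L i₀ ::ₘ 0) (by simp)
    rw [← this]
    congr 1
    simp only [Multiset.cons_add, Multiset.add_cons, add_zero]
    rw [Multiset.cons_swap (X.cl (D k)) y, Multiset.cons_swap (X.cl (D k)) (L i₀)]
  obtain ⟨r, hr⟩ : ∃ r, r + 1 = n := ⟨n - 1, by omega⟩
  obtain ⟨c₂, hc₂, hL2'⟩ := hL2 N P ι n r X A hA hcard hr F hNSF
  obtain ⟨C, hC, hNB'⟩ := hNB N P n r X A hA hr
  have hdeg : ∀ k, 0 < X.I (X.cl (D k) ::ₘ replicate r A) := by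
    intro k
    refine X.posD _ _ (by simpa using hr) ?_
    intro a ha
    rw [Multiset.eq_of_mem_replicate ha]; exact hA
  set t : ℕ → ℝ := fun k => (X.I (X.cl (D k) ::ₘ replicate r A))⁻¹ with ht
  have htpos : ∀ k, 0 < t k := fun k => inv_pos.2 (hdeg k)
  set z : ℕ → N := fun k => t k • X.cl (D k) with hz
  have hzI : ∀ k (s : Multiset N), s.card + 1 = n →
      X.I (z k ::ₘ s) = t k * X.I (X.cl (D k) ::ₘ s) := fun k s hs => X.I_smul _ _ hs
  have hzpos : ∀ k, X.Pos (z k) := by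
    intro k s hs hsn
    rw [hzI k s hs]
    exact mul_nonneg (htpos k).le (hPosD (D k) s hs hsn)
  have hz1 : ∀ k, X.I (z k ::ₘ replicate r A) = 1 := by
    intro k
    rw [hzI k _ (by simpa using hr), ht]
    exact inv_mul_cancel₀ (hdeg k).ne'
  have hzb : ∀ k, z k ∈ Metric.closedBall (0 : N) C := by
    intro k
    rw [mem_closedBall_zero_iff]
    have := hNB' (z k) (hzpos k)
    rwa [hz1 k, mul_one] at this
  obtain ⟨d, -, φ, hφ, hd⟩ := tendsto_subseq_of_bounded Metric.isBounded_closedBall hzb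
  have hφt : Tendsto φ atTop atTop := hφ.tendsto_atTop
  have hMφ : MT atTop (fun k => M (φ k)) M₀ := hM.comp hφt
  have hd' : Tendsto (fun k => z (φ k)) atTop (𝓝 d) := hd
  -- limits
  have hlim : ∀ (u v : ℕ → N) (u₀ v₀ : N), Tendsto u atTop (𝓝 u₀) → Tendsto v atTop (𝓝 v₀) →
      Tendsto (fun k => X.I (z (φ k) ::ₘ u k ::ₘ v k ::ₘ M (φ k))) atTop
        (𝓝 (X.I (d ::ₘ u₀ ::ₘ v₀ ::ₘ M₀))) := by
    intro u v u₀ v₀ hu hv
    exact hCT N P n X ℕ atTop _ _ (MT.cons hd' (MT.cons hu (MT.cons hv hMφ))) (by simp; omega)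
  have hAA : c₂ ≤ X.I (d ::ₘ A ::ₘ A ::ₘ M₀) := by
    have h1 : Tendsto (fun k => X.I (z (φ k) ::ₘ A ::ₘ A ::ₘ M₀)) atTop
        (𝓝 (X.I (d ::ₘ A ::ₘ A ::ₘ M₀))) :=
      hCT N P n X ℕ atTop _ _ (MT.cons hd' (MT.const _)) (by simp; omega)
    refine ge_of_tendsto' h1 ?_
    intro k
    rw [hzI _ _ (by simp; omega)]
    have := hL2' (D (φ k)) (hDF (φ k))
    rw [hmsF] at this
    have h2 := mul_le_mul_of_nonneg_left this (htpos (φ k)).le
    refine le_trans (le_of_eq ?_) h2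
    have h3 : t (φ k) * X.I (X.cl (D (φ k)) ::ₘ replicate r A) = 1 :=
      inv_mul_cancel₀ (hdeg (φ k)).ne'
    calc c₂ = c₂ * (t (φ k) * X.I (X.cl (D (φ k)) ::ₘ replicate r A)) := by rw [h3, mul_one]
      _ = _ := by ring
  have hdne : d ≠ 0 := by
    rintro rfl
    rw [X.I_zero (by simp; omega)] at hAA
    linarith
  have hsb : SymBil (fun u v => X.I (d ::ₘ u ::ₘ v ::ₘ M₀)) := X.symBil_d d hcM₀
  have hlor : Lor (fun u v => X.I (d ::ₘ u ::ₘ v ::ₘ M₀)) := by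
    refine hLL N (fun k u v => X.I (z (φ k) ::ₘ u ::ₘ v ::ₘ M (φ k))) _ ?_ ?_
    · intro k
      have h1 := lor_smul ((hPS N P n X).2.2.2.2 (D (φ k)) (M (φ k)) (hcM _) (hMn _))
        (htpos (φ k))
      have e : (fun u v => X.I (z (φ k) ::ₘ u ::ₘ v ::ₘ M (φ k))) =
          fun u v => t (φ k) * X.I (X.cl (D (φ k)) ::ₘ u ::ₘ v ::ₘ M (φ k)) := by
        funext u v
        exact hzI _ _ (by have := hcM (φ k); simp; omega)
      simp only [e]
      exact h1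
    · intro u v
      exact hlim _ _ u v tendsto_const_nhds tendsto_const_nhds
  have hηφ : Tendsto (fun k => η (φ k)) atTop (𝓝 η₀) := hη.comp hφt
  have hgφ : Tendsto (fun k => g (φ k)) atTop (𝓝 (L i₀)) := hg.comp hφt
  have hxφ : Tendsto (fun k => x (φ k)) atTop (𝓝 0) := hx.comp hφt
  have hηη : 0 < X.I (d ::ₘ η₀ ::ₘ η₀ ::ₘ M₀) := by
    have h1 : c * X.I (d ::ₘ A ::ₘ A ::ₘ M₀) ≤ X.I (d ::ₘ η₀ ::ₘ η₀ ::ₘ M₀) := by
      refine le_of_tendsto_of_tendsto'
        ((hlim (fun _ => A) (fun _ => A) A A tendsto_const_nhds tendsto_const_nhds).const_mul c)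
        (hlim _ _ η₀ η₀ hηφ hηφ) ?_
      intro k
      have hk := hcM (φ k)
      rw [hzI _ _ (by simp; omega), hzI _ _ (by simp; omega)]
      have := mul_le_mul_of_nonneg_left (hall (φ k)) (htpos (φ k)).le
      linarith
    have h2 : 0 < c * X.I (d ::ₘ A ::ₘ A ::ₘ M₀) := mul_pos hc (lt_of_lt_of_le hc₂ hAA)
    linarith
  have hηL : X.I (d ::ₘ η₀ ::ₘ L i₀ ::ₘ M₀) = 0 := by
    have h1 := hlim _ _ η₀ (L i₀) hηφ hgφ
    have h2 : Tendsto (fun k => X.I (x (φ k) ::ₘ z (φ k) ::ₘ A ::ₘ M (φ k))) atTop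
        (𝓝 (X.I ((0 : N) ::ₘ d ::ₘ A ::ₘ M₀))) :=
      hCT N P n X ℕ atTop _ _ (MT.cons hxφ (MT.cons hd' (MT.cons tendsto_const_nhds hMφ)))
        (by simp; omega)
    rw [X.I_zero (by simp; omega)] at h2
    have e : (fun k => X.I (z (φ k) ::ₘ η (φ k) ::ₘ g (φ k) ::ₘ M (φ k))) =
        fun k => X.I (x (φ k) ::ₘ z (φ k) ::ₘ A ::ₘ M (φ k)) := by
      funext k
      rw [hxy, Multiset.cons_swap]
    rw [e] at h1
    exact tendsto_nhds_unique h1 h2
  have hLL0 : 0 ≤ X.I (d ::ₘ L i₀ ::ₘ L i₀ ::ₘ M₀) := by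
    refine ge_of_tendsto' (hlim (fun _ => L i₀) (fun _ => L i₀) (L i₀) (L i₀)
      tendsto_const_nhds tendsto_const_nhds) ?_
    intro k
    have hk := hcM (φ k)
    refine hzpos (φ k) _ (by simp; omega) ?_
    intro a ha
    rcases Multiset.mem_cons.1 ha with rfl | ha
    · exact hLn i₀
    rcases Multiset.mem_cons.1 ha with rfl | ha
    · exact hLn i₀
    · exact hMn _ a ha
  obtain ⟨l1, l2, -⟩ := hLR N _ hsb hlor
  have hLLz : X.I (d ::ₘ L i₀ ::ₘ L i₀ ::ₘ M₀) = 0 :=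
    le_antisymm (l1 η₀ (L i₀) hηη hηL) hLL0
  have hker : X.Ker L d := by
    intro y
    rw [hmsL, Multiset.cons_swap y]
    exact l2 η₀ (L i₀) hηη hηL hLLz y
  exact hdne (hL1 N P ι n X A hA hcard L hNS (fun k => D (φ k)) (fun k => t (φ k)) d
    (fun k => (htpos _).le) hd' (fun k => hD (φ k)) hker)

end Pool.Agent.H66.SC.KS6
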