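import Pool.Agent.H16.SC.Targets

/-! Module KX0 (block B1, MP_f2954d_ag): the classes `x` with `A M x = L η` tend to `0`. -/

namespace Pool.Agent.H66.SC.KX0

open SCB Multiset Filter Topology

theorem kx0 (hCN : T_CN) (hCT : T_CT) (hPS : T_PS) (hPM : T_PM) (hDM : T_DM) (hRP : T_RP)
    (hCL : T_CL) : T_X0 := by
  intro N P ι _ _ _ _ _ n X A hA hcard L hNS hIH i₀ e a η η₀ x hi₀ he he0 ha hη hker hηV hxη
  have : ProperSpace N := FiniteDimensional.proper ℝ N
  set M₀ : Multiset N := mss (Finset.univ.erase i₀) L with hM₀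
  have hpos1 : 0 < Fintype.card ι := Fintype.card_pos_iff.2 ⟨i₀⟩
  have hcmss : ∀ f : ι → N, (mss (Finset.univ.erase i₀) f).card + 3 = n := by
    intro f
    rw [card_mss, Finset.card_erase_of_mem (Finset.mem_univ _), Finset.card_univ]; omega
  have hcM₀ : M₀.card + 3 = n := hcmss L
  have hLn : ∀ i, L i ∈ X.Nef := hNS.1
  have hM₀n : ∀ a ∈ M₀, a ∈ X.Nef := by
    intro a ha
    obtain ⟨i, -, rfl⟩ := (mem_mss _ _ _).1 ha
    exact hLn i
  have hmsL : ms L = L i₀ ::ₘ M₀ := ms_erase L i₀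
  set F : ι → N := rep A {i₀} L with hF
  have hFi₀ : F i₀ = A := by simp [hF, rep]
  have hFi : ∀ i, i ≠ i₀ → F i = L i := by intro i hi; simp [hF, rep, hi]
  have hmsF : ms F = A ::ₘ M₀ := by
    rw [ms_erase F i₀, hFi₀]
    congr 1
    exact mss_congr fun i hi => hFi i (Finset.mem_erase.1 hi).1
  obtain ⟨hNSF, -, hna⟩ := hRP N P ι n X A hA hcard L hNS {i₀}
  have hnaF : X.na F < X.na L := hna ⟨i₀, by simp, hi₀⟩
  have hIHF : X.IH A F := fun L' h1 h2 => hIH L' h1 (h2.trans hnaF)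
  have hThmF : X.Thm F := hIH F hNSF hnaF
  have hPosD : ∀ D : P, X.Pos (X.cl D) := (hPS N P n X).2.1
  have hV : X.V F ≤ X.V L := by
    refine Submodule.span_mono (Set.image_mono ?_)
    intro D hD y
    rw [hmsL]
    have h0 : X.I ((X.cl D ::ₘ M₀) + (A ::ₘ A ::ₘ 0)) = 0 := by
      have := hD A
      rw [hmsF] at this
      rw [← this]
      congr 1
      simp only [Multiset.cons_add, Multiset.add_cons, add_zero]
      rw [Multiset.cons_swap (X.cl D) A, Multiset.cons_swap (X.cl D) A]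
    have := hDM N P n X (X.cl D ::ₘ M₀) (A ::ₘ A ::ₘ 0)
      ((hPM N P n X).2.2.1 _ _ (hPosD D) hM₀n)
      (by
        intro a ha
        have : a = A := by simpa using ha
        rw [this]; exact (hCN N P n X).2.2.1 A hA)
      (by simp; omega) h0 (y ::ₘ L i₀ ::ₘ 0) (by simp)
    rw [← this]
    congr 1
    simp only [Multiset.cons_add, Multiset.add_cons, add_zero]
    rw [Multiset.cons_swap (X.cl D) y, Multiset.cons_swap (X.cl D) (L i₀)]
  by_contra hcon
  rw [Metric.tendsto_atTop] at hcon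
  push Not at hcon
  obtain ⟨ε, hε, hfr⟩ := hcon
  obtain ⟨φ, hφ, hφε⟩ := Filter.extraction_of_frequently_atTop (P := fun k => ε ≤ ‖x k‖)
    (Filter.frequently_atTop.2 (fun K => by
      obtain ⟨k, hk, hk'⟩ := hfr K
      exact ⟨k, hk, by simpa using hk'⟩))
  have hφpos : ∀ k, 0 < ‖x (φ k)‖ := fun k => lt_of_lt_of_le hε (hφε k)
  set z' : ℕ → N := fun k => ‖x (φ k)‖⁻¹ • x (φ k) with hz'
  have hz'n : ∀ k, ‖z' k‖ = 1 := by
    intro k
    rw [hz']
    simp only [norm_smul, norm_inv, norm_norm]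
    exact inv_mul_cancel₀ (hφpos k).ne'
  obtain ⟨z₀, -, ψ, hψ, hz₀⟩ := tendsto_subseq_of_bounded
    (Metric.isBounded_closedBall (x := (0 : N)) (r := 1)) (x := z')
    (fun k => by rw [mem_closedBall_zero_iff, hz'n k])
  have hz₀n : ‖z₀‖ = 1 := by
    have h1 : Tendsto (fun k => ‖z' (ψ k)‖) atTop (𝓝 ‖z₀‖) := hz₀.norm
    have h2 : (fun k => ‖z' (ψ k)‖) = fun _ => (1 : ℝ) := by funext k; exact hz'n _
    rw [h2] at h1
    exact (tendsto_nhds_unique h1 tendsto_const_nhds)
  set θ : ℕ → ℕ := fun k => φ (ψ k) with hθ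
  have hθt : Tendsto θ atTop atTop := (hφ.comp hψ).tendsto_atTop
  set z : ℕ → N := fun k => z' (ψ k) with hz
  have hzt : Tendsto z atTop (𝓝 z₀) := hz₀
  have hL' : ∀ i, Tendsto (fun k => L i + e k • a k i) atTop (𝓝 (L i)) := by
    intro i
    have : Tendsto (fun k => L i + e k • a k i) atTop (𝓝 (L i + (0 : ℝ) • A)) :=
      tendsto_const_nhds.add (he0.smul (ha i))
    simpa using this
  have hMt : MT atTop (fun k => mss (Finset.univ.erase i₀) (fun i => L i + e (θ k) • a (θ k) i))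
      M₀ := (MT.mss _ fun i _ => hL' i).comp hθt
  have hmt : MT atTop (fun k => ms (fun i => L i + e (θ k) • a (θ k) i)) (ms L) :=
    (MT.ms hL').comp hθt
  have hzI : ∀ k y, X.I (z k ::ₘ y ::ₘ A ::ₘ
      mss (Finset.univ.erase i₀) (fun i => L i + e (θ k) • a (θ k) i)) =
      ‖x (θ k)‖⁻¹ * X.I (η (θ k) ::ₘ y ::ₘ ms (fun i => L i + e (θ k) • a (θ k) i)) := by
    intro k y
    rw [← hxη]
    exact X.I_smul _ _ (by
      have := hcmss (fun i => L i + e (θ k) • a (θ k) i)
      simp only [Multiset.card_cons]; omega)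
  have hkerF : X.Ker F z₀ := by
    intro y
    rw [hmsF]
    have h1 : Tendsto (fun k => X.I (z k ::ₘ y ::ₘ A ::ₘ
        mss (Finset.univ.erase i₀) (fun i => L i + e (θ k) • a (θ k) i))) atTop
        (𝓝 (X.I (z₀ ::ₘ y ::ₘ A ::ₘ M₀))) :=
      hCT N P n X ℕ atTop _ _ (MT.cons hzt (MT.cons tendsto_const_nhds
        (MT.cons tendsto_const_nhds hMt))) (by simp; omega)
    have h2 : Tendsto (fun k => X.I (η (θ k) ::ₘ y ::ₘ ms (fun i => L i + e (θ k) • a (θ k) i)))
        atTop (𝓝 0) := by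
      have := hCT N P n X ℕ atTop _ _ (MT.cons (hη.comp hθt) (MT.cons
        (tendsto_const_nhds (x := y)) hmt)) (by simp [hmsL]; omega)
      rw [hker y] at this
      exact this
    have h3 : Tendsto (fun k => X.I (z k ::ₘ y ::ₘ A ::ₘ
        mss (Finset.univ.erase i₀) (fun i => L i + e (θ k) • a (θ k) i))) atTop (𝓝 0) := by
      have h4 : Tendsto (fun k => ε⁻¹ *
          |X.I (η (θ k) ::ₘ y ::ₘ ms (fun i => L i + e (θ k) • a (θ k) i))|) atTop (𝓝 0) := by
        have := (h2.abs).const_mul ε⁻¹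
        simpa using this
      refine squeeze_zero_norm ?_ h4
      intro k
      rw [hzI, Real.norm_eq_abs, abs_mul, abs_inv, abs_norm]
      exact mul_le_mul_of_nonneg_right (inv_anti₀ hε (hφε _)) (abs_nonneg _)
    exact tendsto_nhds_unique h1 h3
  have hzV : z₀ ∈ X.V F := hThmF z₀ hkerF
  have hzero : ∀ k, X.I (z k ::ₘ z₀ ::ₘ A ::ₘ
      mss (Finset.univ.erase i₀) (fun i => L i + e (θ k) • a (θ k) i)) = 0 := by
    intro k
    rw [hzI, hηV _ z₀ (hV hzV), mul_zero]
  have hfin : z₀ = 0 := by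
    refine hCL N P ι n X A hA hcard F hNSF hIHF (fun k => e (θ k))
      (fun k i => if i = i₀ then A else a (θ k) i) z z₀ (fun k => he _) (he0.comp hθt) ?_ hzt
      ?_ hzV
    · intro i
      by_cases hi : i = i₀
      · simp only [hi, if_true]; exact tendsto_const_nhds
      · simp only [hi, if_false]; exact (ha i).comp hθt
    · intro k
      have h1 : ms (fun i => F i + e (θ k) • (if i = i₀ then A else a (θ k) i)) =
          (A + e (θ k) • A) ::ₘ mss (Finset.univ.erase i₀)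
            (fun i => L i + e (θ k) • a (θ k) i) := by
        rw [ms_erase _ i₀]
        congr 1
        · simp [hFi₀]
        · refine mss_congr fun i hi => ?_
          have hi' : i ≠ i₀ := (Finset.mem_erase.1 hi).1
          simp [hFi i hi', hi']
      rw [h1]
      have hc1 := hcmss (fun i => L i + e (θ k) • a (θ k) i)
      rw [Multiset.cons_swap z₀, Multiset.cons_swap (z k), X.I_add _ _ (by simp; omega),
        X.I_smul _ _ (by simp; omega)]
      have h2 : X.I (A ::ₘ z k ::ₘ z₀ ::ₘ mss (Finset.univ.erase i₀)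
          (fun i => L i + e (θ k) • a (θ k) i)) = 0 := by
        rw [← hzero k, Multiset.cons_swap A, Multiset.cons_swap A]
      rw [h2]; ring
  rw [hfin, norm_zero] at hz₀n
  exact zero_ne_one hz₀n

end Pool.Agent.H66.SC.KX0
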